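import Pool.Agent.Results.MP_2688e8_nt.KhintchineOnVerticalLines

/-!
# Khintchine's theorem on every line of rational direction

Let `ψ` be positive and monotonic with `∑ ψ(q)^2 = ∞`. On every line of the plane whose direction
is that of an integer vector (no condition on the position of the line), for almost every point
`(x, y)`, every `ε > 0` and every `m ≥ 1` there are infinitely many multiples `q` of `m` with
`‖q x‖ < ε ψ(q)` and `‖q y‖ < ε ψ(q)`. For the vertical lines this contains the statement about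
the fibres of `W(2, ψ)`.
-/

set_option autoImplicit false

namespace Pool.Agent.Results.MP_2688e8_nt.RationalLines

open MeasureTheory Pool.Agent.Helper74.KV
open Pool.Agent.Results.MP_2688e8_nt.KhintchineOnVerticalLines (nearInt W ext ext_coe
  not_summable_ext mem_WW_iff mem_W_two)

/-- Pulling back an almost everywhere statement along an affine map. -/
theorem ae_affine {P : ℝ → Prop} (h : ∀ᵐ x : ℝ, P x) (A : ℝ) {B : ℝ} (hB : B ≠ 0) :
    ∀ᵐ t : ℝ, P (A + B * t) := by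
  rw [ae_iff] at h ⊢
  have h1 : {t : ℝ | ¬ P (A + B * t)} = (fun t => B * t) ⁻¹' ((fun y => A + y) ⁻¹' {x | ¬ P x}) := rfl
  rw [h1, Real.volume_preimage_mul_left hB, measure_preimage_add, h, mul_zero]

/-- The theorem on vertical lines, on the whole line. -/
theorem ae_line (ψ : ℕ+ → ℝ) (hpos : ∀ q, 0 < ψ q) (hmon : Monotone ψ ∨ Antitone ψ)
    (hdiv : ¬ Summable (fun q : ℕ+ => ψ q ^ 2)) (α : ℝ) :
    ∀ᵐ β : ℝ,
      {q : ℕ+ | nearInt (((q : ℕ) : ℝ) * α) < ψ q ∧ nearInt (((q : ℕ) : ℝ) * β) < ψ q}.Infinite := by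
  have hmono : ∀ p q : ℕ, p ≤ q → (⟨max p 1, by omega⟩ : ℕ+) ≤ ⟨max q 1, by omega⟩ := by
    intro p q hpq
    show max p 1 ≤ max q 1
    omega
  have hmon' : Monotone (ext ψ) ∨ Antitone (ext ψ) := by
    rcases hmon with h | h
    · exact Or.inl (fun p q hpq => h (hmono p q hpq))
    · exact Or.inr (fun p q hpq => h (hmono p q hpq))
  have hcirc := circle_all (ext ψ) (fun q => hpos _) hmon' (not_summable_ext ψ hdiv) α
  have hall : ∀ᵐ β : ℝ, ∀ a : ℤ, β ∈ Set.Ioc (a : ℝ) (a + 1) →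
      (β : UnitAddCircle) ∈ WW (ext ψ) (α : UnitAddCircle) := by
    rw [ae_all_iff]
    intro a
    have hae := (AddCircle.measurePreserving_mk 1 (a : ℝ)).quasiMeasurePreserving.ae hcirc
    rw [ae_restrict_iff' measurableSet_Ioc] at hae
    exact hae
  filter_upwards [hall] with β hβ
  rw [← mem_WW_iff]
  refine hβ (⌈β⌉ - 1) ?_
  push_cast
  constructor
  · have := Int.ceil_lt_add_one β
    linarith
  · have := Int.le_ceil β
    linarith

/-- The multiples of `m` carry the divergence of the sum. -/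
theorem not_summable_mul (ψ : ℕ+ → ℝ) (hpos : ∀ q, 0 < ψ q) (hmon : Monotone ψ ∨ Antitone ψ)
    (hdiv : ¬ Summable (fun q : ℕ+ => ψ q ^ 2)) (m : ℕ+) {c : ℝ} (hc : 0 < c) :
    ¬ Summable (fun q : ℕ+ => (c * ψ (m * q)) ^ 2) := by
  intro hs
  have hs1 : Summable (fun q : ℕ+ => ψ (m * q) ^ 2) := by
    have := hs.mul_left ((c ^ 2)⁻¹)
    refine this.congr fun q => ?_
    rw [mul_pow]
    field_simp
  rcases hmon with h | h
  · -- monotone: the terms are bounded from below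
    have h1 : Filter.Tendsto (fun q : ℕ+ => ψ (m * q) ^ 2) Filter.cofinite (nhds 0) :=
      hs1.tendsto_cofinite_zero
    have h2 : ∀ q : ℕ+, ψ 1 ^ 2 ≤ ψ (m * q) ^ 2 := by
      intro q
      exact pow_le_pow_left₀ (hpos 1).le (h one_le) 2
    have h3 : ψ 1 ^ 2 ≤ 0 := ge_of_tendsto' h1 h2
    have h4 : 0 < ψ 1 ^ 2 := pow_pos (hpos 1) 2
    linarith
  · -- antitone
    apply hdiv
    set f : ℕ → ℝ := fun n => ext ψ n ^ 2 with hf
    have hext : ∀ n, 0 < ext ψ n := fun n => hpos _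
    have hanti : Antitone f := by
      intro a b hab
      have : ext ψ b ≤ ext ψ a := h (by
        show (⟨max a 1, by omega⟩ : ℕ+) ≤ ⟨max b 1, by omega⟩
        show max a 1 ≤ max b 1
        omega)
      exact pow_le_pow_left₀ (hext b).le this 2
    have : NeZero (m : ℕ) := ⟨m.ne_zero⟩
    have hsf : Summable f := by
      rw [← summable_indicator_mod_iff (m := (m : ℕ)) hanti 0]
      have hinj : Function.Injective (fun n : ℕ => (m : ℕ) * n) :=
        fun x y hxy => Nat.eq_of_mul_eq_mul_left m.pos hxy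
      rw [← hinj.summable_iff]
      · have h5 : Summable (fun n : ℕ => f ((m : ℕ) * n)) := by
          rw [← summable_nat_add_iff 1]
          have h6 := (Equiv.pnatEquivNat.symm.summable_iff (f := fun q : ℕ+ => ψ (m * q) ^ 2)).mpr hs1
          refine h6.congr fun n => ?_
          simp only [Function.comp, hf]
          have : ψ (m * Equiv.pnatEquivNat.symm n) = ext ψ ((m : ℕ) * (n + 1)) := by
            rw [← ext_coe ψ (m * Equiv.pnatEquivNat.symm n)]
            congr 1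
          rw [this]
        refine h5.congr fun n => ?_
        simp [Set.indicator]
      · intro x hx
        apply Set.indicator_of_notMem
        intro hx2
        apply hx
        have : ((m : ℕ) : ℕ) ∣ x := (ZMod.natCast_eq_zero_iff x m).mp hx2
        obtain ⟨y, hy⟩ := this
        exact ⟨y, hy.symm⟩
    have := hsf.comp_injective PNat.coe_injective
    refine this.congr fun q => ?_
    simp only [Function.comp, hf, ext_coe]

theorem nearInt_nonneg (x : ℝ) : 0 ≤ nearInt x := abs_nonneg _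

theorem nearInt_comb (v s : ℤ) (X Y : ℝ) :
    nearInt (v * X + s * Y) ≤ |(v : ℝ)| * nearInt X + |(s : ℝ)| * nearInt Y := by
  unfold nearInt
  have h1 : |v * X + s * Y - round (v * X + s * Y)| ≤
      |v * X + s * Y - ((v * round X + s * round Y : ℤ) : ℝ)| := round_le _ _
  refine h1.trans ?_
  have h2 : (v : ℝ) * X + s * Y - ((v * round X + s * round Y : ℤ) : ℝ) =
      v * (X - round X) + s * (Y - round Y) := by
    push_cast
    ring
  rw [h2, ← abs_mul, ← abs_mul]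
  exact abs_add_le _ _

/-- **Khintchine's theorem on lines of rational direction.** -/
theorem lines (ψ : ℕ+ → ℝ) (hpos : ∀ q, 0 < ψ q) (hmon : Monotone ψ ∨ Antitone ψ)
    (hdiv : ¬ Summable (fun q : ℕ+ => ψ q ^ 2)) (s p : ℤ) (hsp : s ≠ 0 ∨ p ≠ 0) (a b : ℝ) :
    ∀ᵐ t : ℝ, ∀ ε : ℝ, 0 < ε → ∀ m : ℕ+,
      {q : ℕ+ | m ∣ q ∧ nearInt (((q : ℕ) : ℝ) * (a + s * t)) < ε * ψ q ∧
        nearInt (((q : ℕ) : ℝ) * (b + p * t)) < ε * ψ q}.Infinite := by
  -- a unimodular change of coordinates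
  obtain ⟨k, s', p', u, v, hk, hs, hp, huv⟩ : ∃ k s' p' u v : ℤ, k ≠ 0 ∧ s = k * s' ∧ p = k * p' ∧
      u * s' + v * p' = 1 := by
    have hg : Int.gcd s p ≠ 0 := by
      rw [Ne, Int.gcd_eq_zero_iff]
      rcases hsp with h | h
      · exact fun h' => h h'.1
      · exact fun h' => h h'.2
    have hg' : (Int.gcd s p : ℤ) ≠ 0 := by exact_mod_cast hg
    refine ⟨Int.gcd s p, s / Int.gcd s p, p / Int.gcd s p, Int.gcdA s p, Int.gcdB s p, hg',
      (Int.mul_ediv_cancel' (Int.gcd_dvd_left ..)).symm, (Int.mul_ediv_cancel' (Int.gcd_dvd_right ..)).symm, ?_⟩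
    have h1 := Int.gcd_eq_gcd_ab s p
    have h2 : s = Int.gcd s p * (s / Int.gcd s p) := (Int.mul_ediv_cancel' (Int.gcd_dvd_left ..)).symm
    have h3 : p = Int.gcd s p * (p / Int.gcd s p) := (Int.mul_ediv_cancel' (Int.gcd_dvd_right ..)).symm
    apply mul_left_cancel₀ hg'
    rw [mul_one]
    calc (Int.gcd s p : ℤ) * (Int.gcdA s p * (s / Int.gcd s p) + Int.gcdB s p * (p / Int.gcd s p))
        = (Int.gcd s p * (s / Int.gcd s p)) * Int.gcdA s p
          + (Int.gcd s p * (p / Int.gcd s p)) * Int.gcdB s p := by ring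
      _ = s * Int.gcdA s p + p * Int.gcdB s p := by rw [← h2, ← h3]
      _ = Int.gcd s p := h1.symm
  set C : ℝ := |(u : ℝ)| + |(v : ℝ)| + |(s' : ℝ)| + |(p' : ℝ)| + 1 with hC
  have hC0 : 0 < C := by positivity
  set α : ℝ := a * p' - b * s' with hα
  -- for each `j`, `m`
  have key : ∀ (j : ℕ) (m : ℕ+), ∀ᵐ t : ℝ,
      {q : ℕ+ | nearInt (((q : ℕ) : ℝ) * (((m : ℕ) : ℝ) * α)) < (1 / ((j + 1) * C)) * ψ (m * q) ∧
        nearInt (((q : ℕ) : ℝ) * (((m : ℕ) : ℝ) * (a * u + b * v) + ((m : ℕ) * k : ℝ) * t)) <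
          (1 / ((j + 1) * C)) * ψ (m * q)}.Infinite := by
    intro j m
    have hc : 0 < 1 / (((j : ℝ) + 1) * C) := by positivity
    have hmk : ((m : ℕ) * k : ℝ) ≠ 0 := by
      have h1 : ((m : ℕ) : ℝ) ≠ 0 := by exact_mod_cast m.ne_zero
      have h2 : (k : ℝ) ≠ 0 := by exact_mod_cast hk
      exact mul_ne_zero h1 h2
    apply ae_affine (P := fun β => {q : ℕ+ | nearInt (((q : ℕ) : ℝ) * (((m : ℕ) : ℝ) * α)) <
        (1 / ((j + 1) * C)) * ψ (m * q) ∧
        nearInt (((q : ℕ) : ℝ) * β) < (1 / ((j + 1) * C)) * ψ (m * q)}.Infinite) _ _ hmk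
    apply ae_line (fun q => (1 / (((j : ℝ) + 1) * C)) * ψ (m * q))
    · intro q
      exact mul_pos hc (hpos _)
    · rcases hmon with h | h
      · exact Or.inl fun x y hxy => mul_le_mul_of_nonneg_left (h (mul_le_mul_right hxy m)) hc.le
      · exact Or.inr fun x y hxy => mul_le_mul_of_nonneg_left (h (mul_le_mul_right hxy m)) hc.le
    · exact not_summable_mul ψ hpos hmon hdiv m hc
  have key2 : ∀ᵐ t : ℝ, ∀ (j : ℕ) (m : ℕ+),
      {q : ℕ+ | nearInt (((q : ℕ) : ℝ) * (((m : ℕ) : ℝ) * α)) < (1 / ((j + 1) * C)) * ψ (m * q) ∧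
        nearInt (((q : ℕ) : ℝ) * (((m : ℕ) : ℝ) * (a * u + b * v) + ((m : ℕ) * k : ℝ) * t)) <
          (1 / ((j + 1) * C)) * ψ (m * q)}.Infinite := by
    rw [ae_all_iff]
    intro j
    rw [ae_all_iff]
    intro m
    exact key j m
  filter_upwards [key2] with t ht ε hε m
  obtain ⟨j, hj⟩ := exists_nat_one_div_lt hε
  have h1 := ht j m
  have hinj : Set.InjOn (fun q : ℕ+ => m * q)
      {q : ℕ+ | nearInt (((q : ℕ) : ℝ) * (((m : ℕ) : ℝ) * α)) < (1 / ((j + 1) * C)) * ψ (m * q) ∧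
        nearInt (((q : ℕ) : ℝ) * (((m : ℕ) : ℝ) * (a * u + b * v) + ((m : ℕ) * k : ℝ) * t)) <
          (1 / ((j + 1) * C)) * ψ (m * q)} := fun x _ y _ hxy => mul_left_cancel hxy
  refine (h1.image hinj).mono ?_
  rintro _ ⟨q, ⟨h2, h3⟩, rfl⟩
  simp only [Set.mem_ofPred_eq]
  have hψ : 0 < ψ (m * q) := hpos _
  set X : ℝ := ((q : ℕ) : ℝ) * (((m : ℕ) : ℝ) * α) with hX
  set Y : ℝ := ((q : ℕ) : ℝ) * (((m : ℕ) : ℝ) * (a * u + b * v) + ((m : ℕ) * k : ℝ) * t) with hY
  have hXn := nearInt_nonneg X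
  have hYn := nearInt_nonneg Y
  have hr : (u : ℝ) * s' + v * p' = 1 := by exact_mod_cast huv
  have hcast : (((m * q : ℕ+) : ℕ) : ℝ) = ((m : ℕ) : ℝ) * ((q : ℕ) : ℝ) := by
    push_cast
    ring
  have hx : (((m * q : ℕ+) : ℕ) : ℝ) * (a + s * t) = (v : ℝ) * X + (s' : ℝ) * Y := by
    rw [hcast, hX, hY, hs, hα]
    push_cast
    linear_combination (-(m : ℝ) * q * a) * hr
  have hy : (((m * q : ℕ+) : ℕ) : ℝ) * (b + p * t) = ((-u : ℤ) : ℝ) * X + (p' : ℝ) * Y := by
    rw [hcast, hX, hY, hp, hα]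
    push_cast
    linear_combination (-(m : ℝ) * q * b) * hr
  have hlt : ∀ A B : ℝ, 0 ≤ A → 0 ≤ B → A + B < C →
      A * nearInt X + B * nearInt Y < ε * ψ (m * q) := by
    intro A B hA hB hAB
    have e1 : A * nearInt X ≤ A * ((1 / ((j + 1) * C)) * ψ (m * q)) :=
      mul_le_mul_of_nonneg_left h2.le hA
    have e2 : B * nearInt Y ≤ B * ((1 / ((j + 1) * C)) * ψ (m * q)) :=
      mul_le_mul_of_nonneg_left h3.le hB
    have e3 : 0 < (1 / (((j : ℝ) + 1) * C)) * ψ (m * q) := by positivity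
    have e4 : (A + B) * ((1 / (((j : ℝ) + 1) * C)) * ψ (m * q)) <
        C * ((1 / (((j : ℝ) + 1) * C)) * ψ (m * q)) := mul_lt_mul_of_pos_right hAB e3
    have e5 : C * ((1 / (((j : ℝ) + 1) * C)) * ψ (m * q)) = 1 / ((j : ℝ) + 1) * ψ (m * q) := by
      field_simp
    have e6 : 1 / ((j : ℝ) + 1) * ψ (m * q) < ε * ψ (m * q) := mul_lt_mul_of_pos_right hj hψ
    linarith
  refine ⟨Dvd.intro q rfl, ?_, ?_⟩
  · rw [hx]
    refine (nearInt_comb v s' X Y).trans_lt (hlt _ _ (abs_nonneg _) (abs_nonneg _) ?_)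
    have := abs_nonneg (u : ℝ)
    have := abs_nonneg (p' : ℝ)
    rw [hC]
    linarith
  · rw [hy]
    refine (nearInt_comb (-u) p' X Y).trans_lt (hlt _ _ (abs_nonneg _) (abs_nonneg _) ?_)
    have := abs_nonneg (v : ℝ)
    have := abs_nonneg (s' : ℝ)
    rw [hC]
    push_cast
    rw [abs_neg]
    linarith

/-- **Khintchine's theorem on every line of rational direction.** Let `ψ` be positive and
monotonic with `∑ ψ(q)^2 = ∞`. For every integer vector `(s, p) ≠ 0` and all real `a, b`, for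
almost every `t` the point `(x, y) = (a + s t, b + p t)` has the property: for every `ε > 0` and
every `m ≥ 1` infinitely many multiples `q` of `m` satisfy `‖q x‖, ‖q y‖ < ε ψ(q)`. In particular
every fibre `{β : (α, β) ∈ W(2, ψ)}`, `α ∈ [0, 1]`, has measure `1`. -/
theorem result : ∀ ψ : ℕ+ → ℝ, (∀ q, 0 < ψ q) → (Monotone ψ ∨ Antitone ψ) →
    ¬ Summable (fun q : ℕ+ => ψ q ^ 2) →
    (∀ s p : ℤ, (s ≠ 0 ∨ p ≠ 0) → ∀ a b : ℝ, ∀ᵐ t : ℝ, ∀ ε : ℝ, 0 < ε → ∀ m : ℕ+,
      {q : ℕ+ | m ∣ q ∧ nearInt (((q : ℕ) : ℝ) * (a + s * t)) < ε * ψ q ∧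
        nearInt (((q : ℕ) : ℝ) * (b + p * t)) < ε * ψ q}.Infinite) ∧
    (∀ α ∈ Set.Icc (0 : ℝ) 1, volume {β : ℝ | ![α, β] ∈ W 2 ψ} = 1) := by
  intro ψ hpos hmon hdiv
  refine ⟨fun s p hsp a b => lines ψ hpos hmon hdiv s p hsp a b, fun α hα => ?_⟩
  have h := lines ψ hpos hmon hdiv 0 1 (Or.inr one_ne_zero) α 0
  have h1 : ∀ᵐ β : ℝ, β ∈ Set.Icc (0 : ℝ) 1 → ![α, β] ∈ W 2 ψ := by
    filter_upwards [h] with β hβ h01
    rw [mem_W_two]
    refine ⟨hα, h01, (hβ 1 one_pos 1).mono ?_⟩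
    rintro q ⟨_, h2, h3⟩
    simpa using And.intro h2 h3
  apply le_antisymm
  · calc volume {β : ℝ | ![α, β] ∈ W 2 ψ} ≤ volume (Set.Icc (0 : ℝ) 1) :=
          measure_mono (fun β hβ => ((mem_W_two ψ α β).mp hβ).2.1)
      _ = 1 := by simp
  · calc (1 : ENNReal) = volume (Set.Icc (0 : ℝ) 1) := by simp
      _ ≤ volume {β : ℝ | ![α, β] ∈ W 2 ψ} := by
          apply measure_mono_ae
          filter_upwards [h1] with β hβ h01
          exact hβ h01

end Pool.Agent.Results.MP_2688e8_nt.RationalLines
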